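import Pool.Agent.H16.TC.MXP

/-!
# Project TC, module CCC
-/

open Complex Metric Set Filter Topology

namespace Pool.Agent.H63.TC

/-- the fields of the cone with prescribed `τ`-component -/
def cccE {V : Type} [TopologicalSpace V] {A : Atlas V} (W : Ell A) (C : (V → ℂ × ℂ) → Prop)
    (h : V → ℂ) : Set (V → ℂ × ℂ) := {η | C η ∧ ∀ p, W.hh η p = h p}

section
variable {V : Type} [TopologicalSpace V] {A : Atlas V} (W : Ell A)

/-- `hh` depends only on the value of the field -/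
lemma ccc_hh_const (ξ : V → ℂ × ℂ) (p : V) : W.hh ξ p = W.hh (fun _ => ξ p) p := rfl

lemma ccc_tr_const (ω : ℂ) (ξ : V → ℂ × ℂ) (p : V) :
    W.tr ω ξ p = W.tr ω (fun _ => ξ p) p := rfl

lemma ccc_cont_lam (hP : PhdStmt) : Continuous (fun p => deriv lam (W.W p).1) := by
  have hWc := W.cont
  rw [continuous_iff_continuousAt]
  intro p
  have hU : IsOpen {τ : ℂ | 0 < τ.im} := isOpen_lt continuous_const Complex.continuous_im
  have hd : DifferentiableOn ℂ lam {τ : ℂ | 0 < τ.im} := by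
    intro τ hτ
    have hq : (τ, ((1 / 2 : ℝ) : ℂ) * τ + ((1 / 2 : ℝ) : ℂ)) ∈ YY :=
      leaf_mem_YY hτ (fun h => half_not_int h.1)
    obtain ⟨-, hne, -⟩ := hP _ hq
    by_contra hcon
    apply hne
    apply deriv_zero_of_not_differentiableAt
    intro h
    exact hcon h.differentiableWithinAt
  have h2 : ContinuousAt (deriv lam) (W.W p).1 :=
    ((hd.deriv hU).continuousOn).continuousAt (hU.mem_nhds (W.mem p).1)
  exact ContinuousAt.comp (f := fun p => (W.W p).1) h2 (continuous_fst.comp hWc).continuousAt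

lemma ccc_cont_yt (hP : PhdStmt) : Continuous (fun p => yt (W.W p)) := by
  rw [continuous_iff_continuousAt]
  intro p
  obtain ⟨-, -, -, hdt, -, -⟩ := hP _ (W.mem p)
  exact ContinuousAt.comp (f := fun p => W.W p) hdt.continuousAt W.cont.continuousAt

lemma ccc_cont_yu (hP : PhdStmt) : Continuous (fun p => yu (W.W p)) := by
  rw [continuous_iff_continuousAt]
  intro p
  obtain ⟨-, -, -, -, hdu, -⟩ := hP _ (W.mem p)
  exact ContinuousAt.comp (f := fun p => W.W p) hdu.continuousAt W.cont.continuousAt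

/-- joint continuity of `hh` -/
lemma ccc_cont_hh (hP : PhdStmt) :
    Continuous (fun x : (ℂ × ℂ) × V => W.hh (fun _ => x.1) x.2) := by
  unfold Ell.hh
  exact (continuous_fst.comp continuous_fst).div ((ccc_cont_lam W hP).comp continuous_snd)
    (fun x => (hP _ (W.mem x.2)).2.1)

/-- joint continuity of `tr` -/
lemma ccc_cont_tr (hP : PhdStmt) (ω : ℂ) :
    Continuous (fun x : (ℂ × ℂ) × V => W.tr ω (fun _ => x.1) x.2) := by
  have hh := ccc_cont_hh W hP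
  have hk : Continuous (fun x : (ℂ × ℂ) × V => W.kk (fun _ => x.1) x.2) := by
    unfold Ell.kk
    exact ((continuous_snd.comp continuous_fst).sub
      (((ccc_cont_yt W hP).comp continuous_snd).mul hh)).div
      ((ccc_cont_yu W hP).comp continuous_snd) (fun x => (hP _ (W.mem x.2)).2.2.1)
  unfold Ell.tr
  refine Complex.continuous_re.comp ?_
  refine continuous_const.mul (hk.sub (Continuous.mul ?_ hh))
  refine Complex.continuous_ofReal.comp ?_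
  refine Continuous.div ?_ ?_ (fun x => (W.mem x.2).1.ne')
  · exact Complex.continuous_im.comp (continuous_snd.comp (W.cont.comp continuous_snd))
  · exact Complex.continuous_im.comp (continuous_fst.comp (W.cont.comp continuous_snd))

lemma ccc_lim_tr (hP : PhdStmt) (ω : ℂ) {l : Filter ℕ} {v : ℕ → ℂ × ℂ} {v' : ℂ × ℂ} {q : ℕ → V}
    {q' : V} (h1 : Tendsto v l (𝓝 v')) (h2 : Tendsto q l (𝓝 q')) :
    Tendsto (fun n => W.tr ω (fun _ => v n) (q n)) l (𝓝 (W.tr ω (fun _ => v') q')) :=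
  Tendsto.comp (g := fun x : (ℂ × ℂ) × V => W.tr ω (fun _ => x.1) x.2)
    (f := fun n => (v n, q n)) ((ccc_cont_tr W hP ω).tendsto (v', q')) (h1.prodMk_nhds h2)

lemma ccc_lim_hh (hP : PhdStmt) {l : Filter ℕ} {v : ℕ → ℂ × ℂ} {v' : ℂ × ℂ} {q : ℕ → V}
    {q' : V} (h1 : Tendsto v l (𝓝 v')) (h2 : Tendsto q l (𝓝 q')) :
    Tendsto (fun n => W.hh (fun _ => v n) (q n)) l (𝓝 (W.hh (fun _ => v') q')) :=
  Tendsto.comp (g := fun x : (ℂ × ℂ) × V => W.hh (fun _ => x.1) x.2)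
    (f := fun n => (v n, q n)) ((ccc_cont_hh W hP).tendsto (v', q')) (h1.prodMk_nhds h2)

end

section
variable {V : Type} [TopologicalSpace V] [SimplyConnectedSpace V] {A : Atlas V} (W : Ell A)
  {C : (V → ℂ × ℂ) → Prop} {h : V → ℂ}

/-- invariance of the fields and of the transversal component under deck transformations -/
lemma ccc_inv (hEq : EqvStmt) (hC : GoodC A C) (g : V ≃ₜ V) (m n : ℤ)
    (hg : ∀ p, A.E (g p) = A.E p)
    (hg2 : ∀ p, W.W (g p) = ((W.W p).1, (W.W p).2 + 2 * m * (W.W p).1 + 2 * n))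
    (hh : ∀ p, h (g p) = h p) {η : V → ℂ × ℂ} (hη : η ∈ cccE W C h) :
    (fun q => η (g.symm q)) ∈ cccE W C h ∧
      ∀ ω p, W.tr ω (fun q => η (g.symm q)) (g p) = W.tr ω η p := by
  have hE : ∀ p, A.E (g.symm p) = A.E p := by
    intro p
    have := hg (g.symm p)
    rw [g.apply_symm_apply] at this
    exact this.symm
  refine ⟨⟨hC.deck η hη.1 g.symm hE, ?_⟩, ?_⟩
  · intro p
    have h1 := (hEq V A W g m n hg hg2 η (g.symm p)).1
    rw [g.apply_symm_apply] at h1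
    rw [h1, hη.2, ← hh (g.symm p), g.apply_symm_apply]
  · intro ω p
    obtain ⟨h1, h2⟩ := hEq V A W g m n hg hg2 η p
    have ht : (W.W p).1.im ≠ 0 := (W.mem p).1.ne'
    rw [Ell.tr, Ell.tr, h1, h2, hg2]
    congr 2
    have e1 : (((W.W p).2 + 2 * m * (W.W p).1 + 2 * n).im / (W.W p).1.im : ℝ) =
        (W.W p).2.im / (W.W p).1.im + 2 * m := by
      have e2 : ((W.W p).2 + 2 * m * (W.W p).1 + 2 * n).im =
          (W.W p).2.im + 2 * m * (W.W p).1.im := by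
        simp
      rw [e2]
      field_simp
    simp only [e1]
    push_cast
    ring

/-- the puncture estimate at one puncture -/
lemma ccc_punct (hFJ : FijStmt) (hZ : ZprStmt) (hCE : Ce1Stmt) (hEq : EqvStmt)
    (hC : GoodC A C) (hhc : Continuous h)
    (hinv : ∀ g : V ≃ₜ V, (∀ p, (W.W (g p)).1 = (W.W p).1) → ∀ p, h (g p) = h p)
    {τ₀ h₀ : ℂ} (hτ : 0 < τ₀.im)
    (hlam : (lam τ₀).im ≠ 0 ∨ (0 < (lam τ₀).re ∧ (lam τ₀).re < 1))
    (hh₀ : ∀ p, (W.W p).1 = τ₀ → h p = h₀) (ω : ℂ) {s : ℝ} (hs : 0 < s) (m' n' : ℤ) :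
    ∀ᶠ ε in 𝓝[>] (0 : ℝ), ∀ η ∈ cccE W C h, ∀ p, (W.W p).1 = τ₀ →
      ‖(W.W p).2 - m' * τ₀ - n'‖ < ε → W.tr ω η p ≤ s := by
  obtain ⟨ρ, J, hJ1, hJ2, hJ3⟩ := hFJ V A W τ₀ m' n' hτ
  obtain ⟨ρ', hρ'⟩ := hZ V A W τ₀ m' n' J ρ ‖h₀‖ (cccE W C h) hτ hlam hJ1 hJ2
    (fun ξ hξ => hC.sub ξ hξ.1)
    (fun K hK => by
      obtain ⟨M, hM⟩ := hCE V A W C h hC hhc K hK
      exact ⟨M, fun ξ hξ p hp => hM ξ hξ.1 hξ.2 p hp⟩)
    (fun ξ hξ z hz => by rw [hξ.2, hh₀ _ (by rw [hJ2 z hz])])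
    (s / (‖ω‖ + 1)) (by positivity)
  have hpos : 0 < min (Real.exp ρ) (Real.exp ρ') := lt_min (Real.exp_pos _) (Real.exp_pos _)
  filter_upwards [Ioo_mem_nhdsGT hpos] with ε hε η hη p hp hpε
  set w := (W.W p).2 - m' * τ₀ - n' with hw
  have hw0 : w ≠ 0 := by
    intro h0
    apply (W.mem p).2
    refine ⟨m', n', ?_⟩
    rw [hp]
    rw [hw] at h0
    linear_combination h0
  -- the logarithm with imaginary part in `[0, 2π]`
  obtain ⟨z, hz1, hz2, hz3⟩ : ∃ z : ℂ, exp z = w ∧ 0 ≤ z.im ∧ z.im ≤ 2 * Real.pi := by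
    by_cases hl : 0 ≤ (Complex.log w).im
    · refine ⟨Complex.log w, exp_log hw0, hl, ?_⟩
      have := Complex.log_im_le_pi w
      linarith [Real.pi_pos]
    · push Not at hl
      refine ⟨Complex.log w + 2 * Real.pi * I, ?_, ?_, ?_⟩
      · rw [Complex.exp_add, Complex.exp_two_pi_mul_I, mul_one, exp_log hw0]
      · have := Complex.neg_pi_lt_log_im w
        simp
        linarith [Real.pi_pos]
      · simp
        linarith
  have hre : Real.exp z.re = ‖w‖ := by rw [← Complex.norm_exp, hz1]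
  have hz4 : z.re < ρ := by
    rw [← Real.exp_lt_exp, hre]
    exact (hpε.trans hε.2).trans_le (min_le_left _ _)
  have hz5 : z.re < ρ' := by
    rw [← Real.exp_lt_exp, hre]
    exact (hpε.trans hε.2).trans_le (min_le_right _ _)
  have hWp : W.W p = (τ₀, m' * τ₀ + n' + exp z) := by
    rw [hz1, hw, ← hp]
    ext
    · rfl
    · simp only; ring
  obtain ⟨g, hg1, hg2, hg3⟩ := hJ3 p z hz4 hWp
  obtain ⟨h1, h2⟩ := ccc_inv W hEq hC g 0 0 hg1 (fun x => by rw [hg2]; simp)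
    (hinv g fun x => by rw [hg2]) hη
  have h3 := h2 ω p
  rw [hg3] at h3
  rw [← h3]
  have h4 := hρ' _ h1 z hz5 hz4 hz2 hz3
  have hJz : (W.W (J z)).1 = τ₀ := by rw [hJ2 z hz4]
  unfold Ell.tr
  rw [hJz]
  refine (Complex.re_le_norm _).trans ?_
  rw [norm_mul]
  calc ‖ω‖ * _ ≤ ‖ω‖ * (s / (‖ω‖ + 1)) := by
        apply mul_le_mul_of_nonneg_left _ (norm_nonneg _)
        exact h4
    _ ≤ s := by
        rw [mul_div_assoc', div_le_iff₀ (by positivity)]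
        nlinarith [norm_nonneg ω]

/-- the puncture estimate at the nine punctures -/
lemma ccc_punct9 (hFJ : FijStmt) (hZ : ZprStmt) (hCE : Ce1Stmt) (hEq : EqvStmt)
    (hC : GoodC A C) (hhc : Continuous h)
    (hinv : ∀ g : V ≃ₜ V, (∀ p, (W.W (g p)).1 = (W.W p).1) → ∀ p, h (g p) = h p)
    {τ₀ h₀ : ℂ} (hτ : 0 < τ₀.im)
    (hlam : (lam τ₀).im ≠ 0 ∨ (0 < (lam τ₀).re ∧ (lam τ₀).re < 1))
    (hh₀ : ∀ p, (W.W p).1 = τ₀ → h p = h₀) (ω : ℂ) {s : ℝ} (hs : 0 < s) :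
    ∃ ε > 0, ∀ m' n' : ℤ, |m'| ≤ 1 → |n'| ≤ 1 → ∀ η ∈ cccE W C h, ∀ p, (W.W p).1 = τ₀ →
      ‖(W.W p).2 - m' * τ₀ - n'‖ < ε → W.tr ω η p ≤ s := by
  have hfin : ({x : ℤ × ℤ | |x.1| ≤ 1 ∧ |x.2| ≤ 1} : Set (ℤ × ℤ)).Finite := by
    refine ((Set.finite_Icc (-1 : ℤ) 1).prod (Set.finite_Icc (-1 : ℤ) 1)).subset ?_
    rintro ⟨x, y⟩ ⟨h1, h2⟩
    exact ⟨abs_le.1 h1, abs_le.1 h2⟩
  have h1 : ∀ᶠ ε in 𝓝[>] (0 : ℝ), ∀ x ∈ ({x : ℤ × ℤ | |x.1| ≤ 1 ∧ |x.2| ≤ 1} : Set (ℤ × ℤ)),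
      ∀ η ∈ cccE W C h, ∀ p, (W.W p).1 = τ₀ →
      ‖(W.W p).2 - x.1 * τ₀ - x.2‖ < ε → W.tr ω η p ≤ s := by
    rw [Filter.eventually_all_finite hfin]
    intro x _
    exact ccc_punct W hFJ hZ hCE hEq hC hhc hinv hτ hlam hh₀ ω hs x.1 x.2
  obtain ⟨ε, hε, hε0⟩ := (h1.and self_mem_nhdsWithin).exists
  exact ⟨ε, hε0, fun m' n' hm hn η hη p hp hpε => hε (m', n') ⟨hm, hn⟩ η hη p hp hpε⟩

/-- the main claim -/
lemma ccc_le (hF : FibStmt) (hFJ : FijStmt) (hZ : ZprStmt) (hCE : Ce1Stmt) (hEq : EqvStmt)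
    (hM : MxpStmt) (hCpt : CptStmt) (hCho : ChoStmt) (hP : PhdStmt)
    (hC : GoodC A C) (hhc : Continuous h)
    (hinv : ∀ g : V ≃ₜ V, (∀ p, (W.W (g p)).1 = (W.W p).1) → ∀ p, h (g p) = h p)
    {τ₀ h₀ : ℂ} (hτ : 0 < τ₀.im)
    (hlam : (lam τ₀).im ≠ 0 ∨ (0 < (lam τ₀).re ∧ (lam τ₀).re < 1))
    (hh₀ : ∀ p, (W.W p).1 = τ₀ → h p = h₀) (ω : ℂ) {η : V → ℂ × ℂ} (hη : η ∈ cccE W C h)
    {p : V} (hp : (W.W p).1 = τ₀) : W.tr ω η p ≤ 0 := by
  by_contra hcon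
  push Not at hcon
  set s₀ := W.tr ω η p with hs₀
  obtain ⟨ε, hε, hpun⟩ := ccc_punct9 W hFJ hZ hCE hEq hC hhc hinv hτ hlam hh₀ ω
    (s := s₀ / 2) (by linarith)
  obtain ⟨K, hK, hfib⟩ := hF V A W τ₀ ε hτ hε
  -- large values are attained on `K`
  have hatt : ∀ η ∈ cccE W C h, ∀ p, (W.W p).1 = τ₀ → s₀ / 2 < W.tr ω η p →
      ∃ η' ∈ cccE W C h, ∃ p' ∈ K, (W.W p').1 = τ₀ ∧ W.tr ω η' p' = W.tr ω η p := by
    intro η hη p hp hlt
    obtain ⟨g, m, n, hg1, hg2, hg3⟩ := hfib p hp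
    obtain ⟨h1, h2⟩ := ccc_inv W hEq hC g m n hg1 hg2 (hinv g fun x => by rw [hg2]) hη
    have hgp : (W.W (g p)).1 = τ₀ := by rw [hg2, ← hp]
    rcases hg3 with hg3 | ⟨m', n', hm', hn', hg3⟩
    · exact ⟨_, h1, g p, hg3, hgp, h2 ω p⟩
    · exfalso
      have := hpun m' n' hm' hn' _ h1 (g p) hgp hg3
      rw [h2 ω p] at this
      linarith
  set T : Set ℝ := {x | ∃ η' ∈ cccE W C h, ∃ p' ∈ K, (W.W p').1 = τ₀ ∧ W.tr ω η' p' = x}
    with hT
  obtain ⟨η₁, hη₁, p₁, hp₁, hp₁', h₁⟩ := hatt η hη p hp (by linarith)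
  have hTne : T.Nonempty := ⟨s₀, η₁, hη₁, p₁, hp₁, hp₁', h₁⟩
  obtain ⟨M, hMb⟩ := hCE V A W C h hC hhc K hK
  have hTb : BddAbove T := by
    obtain ⟨B, hB⟩ := (((isCompact_closedBall (0 : ℂ × ℂ) M).prod hK).image
      (ccc_cont_tr W hP ω)).bddAbove
    refine ⟨B, ?_⟩
    rintro x ⟨η', hη', p', hp', -, rfl⟩
    apply hB
    refine ⟨(η' p', p'), ⟨?_, hp'⟩, rfl⟩
    rw [mem_closedBall_zero_iff]
    exact hMb η' hη'.1 hη'.2 p' hp'
  set S := sSup T with hS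
  have hs₀S : s₀ ≤ S := le_csSup hTb ⟨η₁, hη₁, p₁, hp₁, hp₁', h₁⟩
  obtain ⟨x, -, hx2, hx3⟩ := exists_seq_tendsto_sSup hTne hTb
  choose f hf q hq hqτ hfx using hx3
  -- the limit
  set l : Ultrafilter ℕ := hyperfilter ℕ with hl
  have hlt : (l : Filter ℕ) ≤ atTop := Nat.hyperfilter_le_atTop
  obtain ⟨M₀, hM₀⟩ := hCE V A W C h hC hhc (A.sb p (dd (A.E p) / 2))
    (A.isCompact_sb p (by have := A.dd_pos p; linarith))
  have hint : (interior (A.sb p (dd (A.E p) / 2))).Nonempty :=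
    ⟨p, mem_interior_iff_mem_nhds.2 (A.sb_mem_nhds p (by have := A.dd_pos p; linarith))⟩
  obtain ⟨ξ, hξ1, hξ2⟩ := hCpt V A _ hint l f M₀ (fun n => hC.sub _ (hf n).1)
    (fun n p' hp' => hM₀ _ (hf n).1 (hf n).2 p' hp')
  have hξC : C ξ := hC.closed l f ξ (fun n => (hf n).1) hξ2
  have hξc : Continuous ξ := (hCho V A ξ hξ1).continuous
  have hptw : ∀ p', Tendsto (fun n => f n p') l (𝓝 (ξ p')) := fun p' =>
    hξ2.tendsto_comp hξc.continuousAt tendsto_const_nhds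
  have hξE : ξ ∈ cccE W C h := by
    refine ⟨hξC, fun p' => ?_⟩
    have h1 : Tendsto (fun n => W.hh (fun _ => f n p') p') l (𝓝 (W.hh (fun _ => ξ p') p')) :=
      ccc_lim_hh W hP (hptw p') tendsto_const_nhds
    have h3 : (fun n => W.hh (fun _ => f n p') p') = fun _ => h p' := by
      funext n
      exact (hf n).2 p'
    rw [h3] at h1
    exact tendsto_nhds_unique h1 tendsto_const_nhds
  obtain ⟨q', hq'K, hq'⟩ := hK.ultrafilter_le_nhds (l.map q) (by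
    rw [le_principal_iff]
    exact mem_map.2 (univ_mem' hq))
  have hq'' : Tendsto q l (𝓝 q') := hq'
  have hq'τ : (W.W q').1 = τ₀ := by
    have h1 : Tendsto (fun n => (W.W (q n)).1) l (𝓝 (W.W q').1) :=
      ((continuous_fst.comp W.cont).tendsto q').comp hq''
    have h2 : (fun n => (W.W (q n)).1) = fun _ => τ₀ := funext hqτ
    rw [h2] at h1
    exact tendsto_nhds_unique h1 tendsto_const_nhds
  have htrS : W.tr ω ξ q' = S := by
    have h1 : Tendsto (fun n => f n (q n)) l (𝓝 (ξ q')) :=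
      hξ2.tendsto_comp hξc.continuousAt hq''
    have h2 : Tendsto (fun n => W.tr ω (fun _ => f n (q n)) (q n)) l
        (𝓝 (W.tr ω (fun _ => ξ q') q')) := ccc_lim_tr W hP ω h1 hq''
    have h3 : (fun n => W.tr ω (fun _ => f n (q n)) (q n)) = x := by
      funext n
      exact hfx n
    rw [h3] at h2
    exact tendsto_nhds_unique h2 (hx2.mono_left hlt)
  have hmax : ∀ y, (W.W y).1 = τ₀ → W.tr ω ξ y ≤ S := by
    intro y hy
    by_cases hlt : s₀ / 2 < W.tr ω ξ y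
    · obtain ⟨η', hη', p', hp', hp'', h''⟩ := hatt ξ hξE y hy hlt
      exact le_csSup hTb ⟨η', hη', p', hp', hp'', h''⟩
    · push Not at hlt
      linarith
  -- a point of the fibre close to the puncture `0`
  obtain ⟨ρ, J, -, hJ2, -⟩ := hFJ V A W τ₀ 0 0 hτ
  obtain ⟨z, hz1, hz2⟩ : ∃ z : ℂ, z.re < ρ ∧ Real.exp z.re < ε := by
    refine ⟨((min ρ (Real.log ε) - 1 : ℝ) : ℂ), ?_, ?_⟩
    · rw [ofReal_re]
      have := min_le_left ρ (Real.log ε)
      linarith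
    · rw [ofReal_re]
      have h6 := min_le_right ρ (Real.log ε)
      calc Real.exp (min ρ (Real.log ε) - 1) < Real.exp (Real.log ε) :=
            Real.exp_lt_exp.2 (by linarith)
        _ = ε := Real.exp_log hε
  have hJz := hJ2 z hz1
  have hnl : ¬ Lat τ₀ (exp z) := by
    have h1 := W.mem (J z)
    rw [hJz] at h1
    have h2 := h1.2
    simpa using h2
  obtain ⟨y, hy1, hy2⟩ := hM V A W τ₀ ω h₀ ξ S q' (hCho V A ξ hξ1) hτ hq'τ
    (fun x hx => by rw [hξE.2, hh₀ x hx]) hmax htrS (exp z) hnl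
  have h5 := hpun 0 0 (by norm_num) (by norm_num) ξ hξE y (by rw [hy1]) (by
    rw [hy1]
    simp only [Int.cast_zero, zero_mul, sub_zero]
    rw [Complex.norm_exp]
    exact hz2)
  rw [hy2] at h5
  linarith

end

/-- `Im` is not complex differentiable -/
lemma ccc_im (u₀ : ℂ) : ¬ DifferentiableAt ℂ (fun w : ℂ => ((w.im : ℝ) : ℂ)) u₀ := by
  intro hd
  have h := hd.hasDerivAt
  set c := deriv (fun w : ℂ => ((w.im : ℝ) : ℂ)) u₀ with hc
  have h1 : HasDerivAt (fun t : ℝ => ((((u₀ + (t : ℂ)).im : ℝ)) : ℂ)) (c * 1) 0 := by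
    have h2 : HasDerivAt (fun t : ℝ => u₀ + (t : ℂ)) 1 0 := by
      simpa using (Complex.ofRealCLM.hasDerivAt (x := (0 : ℝ))).const_add u₀
    have h3 : HasDerivAt (fun w : ℂ => ((w.im : ℝ) : ℂ)) c (u₀ + ((0 : ℝ) : ℂ)) := by
      simpa using h
    exact h3.comp_of_eq (0 : ℝ) h2 (by simp)
  have h4 : HasDerivAt (fun t : ℝ => ((((u₀ + (t : ℂ) * I).im : ℝ)) : ℂ)) (c * I) 0 := by
    have h2 : HasDerivAt (fun t : ℝ => u₀ + (t : ℂ) * I) (1 * I) 0 := by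
      simpa using ((Complex.ofRealCLM.hasDerivAt (x := (0 : ℝ))).mul_const I).const_add u₀
    rw [one_mul] at h2
    have h3 : HasDerivAt (fun w : ℂ => ((w.im : ℝ) : ℂ)) c (u₀ + ((0 : ℝ) : ℂ) * I) := by
      simpa using h
    exact h3.comp_of_eq (0 : ℝ) h2 (by simp)
  have e1 : (fun t : ℝ => ((((u₀ + (t : ℂ)).im : ℝ)) : ℂ)) = fun _ => ((u₀.im : ℝ) : ℂ) := by
    funext t; simp
  have e2 : (fun t : ℝ => ((((u₀ + (t : ℂ) * I).im : ℝ)) : ℂ)) =
      fun t : ℝ => ((u₀.im : ℝ) : ℂ) + (t : ℂ) := by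
    funext t; simp
  rw [e1] at h1
  rw [e2] at h4
  have h5 := h1.unique (hasDerivAt_const _ _)
  have h6 : HasDerivAt (fun t : ℝ => ((u₀.im : ℝ) : ℂ) + (t : ℂ)) 1 0 := by
    simpa using (Complex.ofRealCLM.hasDerivAt (x := (0 : ℝ))).const_add ((u₀.im : ℝ) : ℂ)
  have h7 := h4.unique h6
  rw [mul_one] at h5
  rw [h5, zero_mul] at h7
  exact zero_ne_one h7

theorem ccc (hF : FibStmt) (hFJ : FijStmt) (hZ : ZprStmt) (hCE : Ce1Stmt) (hEq : EqvStmt)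
    (hM : MxpStmt) (hCpt : CptStmt) (hCho : ChoStmt) (hP : PhdStmt) (hPc : PhcStmt)
    (hWc : WcvStmt) (hL : LiwStmt) : CccStmt := by
  intro V _ _ A W C ξ κ α β hC hξ hαβ hξh
  by_contra hκ
  -- the base point
  obtain ⟨hm, -, hsurj⟩ := hPc
  have hMM : ((1 / 2, 2) : ℂ × ℂ) ∈ MM := by
    refine ⟨?_, ?_, ?_, ?_, ?_⟩ <;> norm_num
  obtain ⟨⟨q, hq⟩, hq2⟩ := hsurj ⟨_, hMM⟩
  have hq3 : Phi q = (1 / 2, 2) := congrArg Subtype.val hq2
  set τ₀ := q.1 with hτ₀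
  have hτ : 0 < τ₀.im := hq.1
  have hlam : lam τ₀ = 1 / 2 := congrArg Prod.fst hq3
  have hlam' : (lam τ₀).im ≠ 0 ∨ (0 < (lam τ₀).re ∧ (lam τ₀).re < 1) := by
    right
    rw [hlam]
    norm_num
  set h : V → ℂ := fun p => κ * (α - β * (W.W p).1) ^ 2 with hh
  set h₀ : ℂ := κ * (α - β * τ₀) ^ 2 with hh₀
  have hne : h₀ ≠ 0 := by
    refine mul_ne_zero hκ (pow_ne_zero _ ?_)
    intro h0
    have him := congrArg Complex.im h0
    have hre := congrArg Complex.re h0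
    simp at him hre
    rcases him with h1 | h1
    · rw [h1] at hre
      simp at hre
      rcases hαβ with h2 | h2
      · exact h2 hre
      · exact h2 h1
    · exact hτ.ne' h1
  have hhc : Continuous h := by
    have := W.cont
    rw [hh]
    fun_prop
  have hinv : ∀ g : V ≃ₜ V, (∀ p, (W.W (g p)).1 = (W.W p).1) → ∀ p, h (g p) = h p := by
    intro g hg p
    simp only [hh, hg]
  have hh0 : ∀ p, (W.W p).1 = τ₀ → h p = h₀ := by
    intro p hp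
    simp only [hh, hp, hh₀]
  have hξE : ξ ∈ cccE W C h := ⟨hξ, hξh⟩
  have key : ∀ ω p, (W.W p).1 = τ₀ → W.tr ω ξ p ≤ 0 := fun ω p hp =>
    ccc_le W hF hFJ hZ hCE hEq hM hCpt hCho hP hC hhc hinv hτ hlam' hh0 ω hξE hp
  have hkk : ∀ p, (W.W p).1 = τ₀ →
      W.kk ξ p = ((W.W p).2.im / τ₀.im : ℝ) * h₀ := by
    intro p hp
    set D := W.kk ξ p - ((W.W p).2.im / (W.W p).1.im : ℝ) * W.hh ξ p with hD
    have h1 : ∀ ω : ℂ, (ω * D).re ≤ 0 := fun ω => key ω p hp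
    have h2 : D = 0 := by
      have h3 := h1 ((starRingEnd ℂ) D)
      rw [mul_comm, Complex.mul_conj, ofReal_re] at h3
      exact Complex.normSq_eq_zero.1 (le_antisymm h3 (Complex.normSq_nonneg _))
    rw [hD, sub_eq_zero, hp, hξE.2, hh0 p hp] at h2
    exact h2
  -- a point of the fibre and a local section
  obtain ⟨x, hx⟩ := (hWc V A W).2 ⟨q, hq⟩
  have hx' : W.W x = (τ₀, q.2) := congrArg Subtype.val hx
  obtain ⟨r, hr, j, hj1, hj2, hj3⟩ := mxp_section hL W hx'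
  have hξhol : A.Hol ξ := hCho V A ξ (hC.sub ξ hξ)
  have hd := mxp_hol hP W hξhol hj1 hj2
  apply ccc_im q.2
  have hmem : q.2 ∈ ball q.2 r := mem_ball_self hr
  have h1 : DifferentiableAt ℂ (fun w : ℂ => W.kk ξ (j w) * (τ₀.im / h₀)) q.2 := by
    refine DifferentiableAt.mul_const ?_ _
    obtain ⟨-, -, hyu, hdt, hdu, -⟩ := hP _ (hj2 _ hmem).1
    have h2 : DifferentiableAt ℂ (fun w : ℂ => ((τ₀, w) : ℂ × ℂ)) q.2 := by fun_prop
    have h3 : DifferentiableAt ℂ (fun w => yt (τ₀, w)) q.2 :=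
      DifferentiableAt.comp (g := yt) (f := fun w : ℂ => ((τ₀, w) : ℂ × ℂ)) q.2 hdt h2
    have h4 : DifferentiableAt ℂ (fun w => yu (τ₀, w)) q.2 :=
      DifferentiableAt.comp (g := yu) (f := fun w : ℂ => ((τ₀, w) : ℂ × ℂ)) q.2 hdu h2
    have h5 : DifferentiableAt ℂ (fun w => (ξ (j w)).2) q.2 :=
      (hd.differentiableAt (isOpen_ball.mem_nhds hmem)).snd
    have h6 : DifferentiableAt ℂ (fun w => ((ξ (j w)).2 - yt (τ₀, w) * h₀) / yu (τ₀, w)) q.2 :=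
      (h5.sub (h3.mul_const _)).div h4 hyu
    refine h6.congr_of_eventuallyEq ?_
    filter_upwards [isOpen_ball.mem_nhds hmem] with w hw
    have hWw := (hj2 w hw).2
    have hh' : W.hh ξ (j w) = h₀ := by rw [hξE.2, hh0 _ (by rw [hWw])]
    rw [Ell.kk, hh', hWw]
  refine h1.congr_of_eventuallyEq ?_
  filter_upwards [isOpen_ball.mem_nhds hmem] with w hw
  have hWw := (hj2 w hw).2
  rw [hkk _ (by rw [hWw]), hWw]
  have hτ' : ((τ₀.im : ℝ) : ℂ) ≠ 0 := by exact_mod_cast hτ.ne'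
  push_cast
  field_simp

end Pool.Agent.H63.TC
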