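import Pool.Agent.H63.TC.Stmts

/-!
# Project TC, module FIB
-/

open Complex Metric Set Filter Topology

namespace Pool.Agent.H63.TC

lemma fib_act_one (m n : ℤ) (q : ℂ × ℂ) :
    act 1 0 0 1 m n q = (q.1, q.2 + 2 * m * q.1 + 2 * n) := by
  simp [act]

lemma fib_round (x : ℝ) : |x + 2 * ((-(round (x / 2)) : ℤ) : ℝ)| ≤ 1 := by
  have h := abs_sub_round (x / 2)
  have e : x + 2 * ((-(round (x / 2)) : ℤ) : ℝ) = 2 * (x / 2 - round (x / 2)) := by
    push_cast; ring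
  rw [e, abs_mul, abs_two]
  linarith

/-- the compact part of the fundamental domain -/
def fibK (τ₀ : ℂ) (ε : ℝ) : Set (ℂ × ℂ) :=
  (fun x : ℝ × ℝ => ((τ₀, (x.1 : ℂ) * τ₀ + x.2) : ℂ × ℂ)) '' (Icc (-1) 1 ×ˢ Icc (-1) 1) ∩
    {q | ∀ m' n' : ℤ, |m'| ≤ 1 → |n'| ≤ 1 → ε ≤ ‖q.2 - m' * τ₀ - n'‖}

lemma fib_isCompact (τ₀ : ℂ) (ε : ℝ) : IsCompact (fibK τ₀ ε) := by
  refine IsCompact.inter_right ?_ ?_
  · refine (isCompact_Icc.prod isCompact_Icc).image ?_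
    fun_prop
  · have : {q : ℂ × ℂ | ∀ m' n' : ℤ, |m'| ≤ 1 → |n'| ≤ 1 → ε ≤ ‖q.2 - m' * τ₀ - n'‖} =
        ⋂ (m' : ℤ) (n' : ℤ) (_ : |m'| ≤ 1) (_ : |n'| ≤ 1),
          {q : ℂ × ℂ | ε ≤ ‖q.2 - m' * τ₀ - n'‖} := by
      ext q
      simp
    rw [this]
    refine isClosed_iInter fun m' => isClosed_iInter fun n' => isClosed_iInter fun _ =>
      isClosed_iInter fun _ => isClosed_le continuous_const ?_
    fun_prop

lemma fib_subset {τ₀ : ℂ} (hτ : 0 < τ₀.im) {ε : ℝ} (hε : 0 < ε) : fibK τ₀ ε ⊆ YY := by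
  rintro q ⟨⟨⟨x, y⟩, ⟨hx, hy⟩, rfl⟩, hq⟩
  apply leaf_mem_YY hτ
  rintro ⟨⟨m, hm⟩, n, hn⟩
  simp only [mem_Icc] at hx hy
  replace hm : x = m := hm
  replace hn : y = n := hn
  have h1 : |m| ≤ 1 := by
    have h1a := hx.1
    have h1b := hx.2
    rw [hm] at h1a h1b
    rw [abs_le]
    constructor
    · exact_mod_cast h1a
    · exact_mod_cast h1b
  have h2 : |n| ≤ 1 := by
    have h1a := hy.1
    have h1b := hy.2
    rw [hn] at h1a h1b
    rw [abs_le]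
    constructor
    · exact_mod_cast h1a
    · exact_mod_cast h1b
  have h3 := hq m n h1 h2
  simp only [hm, hn] at h3
  push_cast at h3
  have h4 : (m : ℂ) * τ₀ + n - m * τ₀ - n = 0 := by ring
  rw [h4, norm_zero] at h3
  linarith

theorem fib (h : Zm2Stmt) : FibStmt := by
  intro V _ _ A W τ₀ ε hτ hε
  obtain ⟨K, hK, hK2⟩ := h V A W (fibK τ₀ ε) (fib_isCompact τ₀ ε) (fib_subset hτ hε)
  refine ⟨K, hK, ?_⟩
  intro p hp
  have hG : G2 1 0 0 1 := ⟨by norm_num, odd_one, Even.zero, Even.zero, odd_one⟩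
  set u := (W.W p).2 with hu
  have hmem := W.mem p
  have hWp : W.W p = (τ₀, u) := by rw [← hp, hu]
  set a := ca (τ₀, u) with ha
  set b := cb (τ₀, u) with hb
  have hab : (a : ℂ) * τ₀ + b = u := ca_cb (q := (τ₀, u)) hτ
  set m : ℤ := -(round (a / 2)) with hm
  set n : ℤ := -(round (b / 2)) with hn
  have hm1 : |a + 2 * (m : ℝ)| ≤ 1 := fib_round a
  have hn1 : |b + 2 * (n : ℝ)| ≤ 1 := fib_round b
  have hnl : ¬ Lat τ₀ (u + 2 * m * τ₀ + 2 * n) := by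
    intro hl
    rw [hWp] at hmem
    apply hmem.2
    have : Lat τ₀ ((2 * m : ℤ) * τ₀ + (2 * n : ℤ)) := lat_int _ _ _
    have h2 := hl.sub this
    push_cast at h2
    have h3 : u + 2 * m * τ₀ + 2 * n - (2 * m * τ₀ + 2 * n) = u := by ring
    rwa [h3] at h2
  by_cases hc : act 1 0 0 1 m n (W.W p) ∈ fibK τ₀ ε
  · obtain ⟨g, hg1, hg2, hg3⟩ := hK2 p 1 0 0 1 m n hG hc
    refine ⟨g, m, n, hg1, ?_, Or.inl hg3⟩
    intro x
    rw [hg2, fib_act_one]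
  · -- a deck transformation exists anyway
    have hact : act 1 0 0 1 m n (W.W p) = (τ₀, u + 2 * m * τ₀ + 2 * n) := by
      rw [fib_act_one, hWp]
    obtain ⟨K', -, hK3⟩ := h V A W {(τ₀, u + 2 * m * τ₀ + 2 * n)} isCompact_singleton (by
      rw [singleton_subset_iff]
      exact ⟨hτ, hnl⟩)
    obtain ⟨g, hg1, hg2, -⟩ := hK3 p 1 0 0 1 m n hG (by rw [hact]; exact mem_singleton _)
    refine ⟨g, m, n, hg1, ?_, Or.inr ?_⟩
    · intro x
      rw [hg2, fib_act_one]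
    · rw [hact] at hc
      have hg4 : (W.W (g p)).2 = u + 2 * m * τ₀ + 2 * n := by rw [hg2, hact]
      rw [hg4]
      by_contra hcon
      push Not at hcon
      apply hc
      refine ⟨⟨(a + 2 * m, b + 2 * n), ⟨?_, ?_⟩, ?_⟩, ?_⟩
      · exact abs_le.1 hm1
      · exact abs_le.1 hn1
      · simp only [Prod.mk.injEq, true_and]
        rw [← hab]; push_cast; ring
      · intro m' n' h1 h2
        exact hcon m' n' h1 h2

end Pool.Agent.H63.TC
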