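import Pool.Agent.H63.TC.Stmts

/-!
# Project TC, module FIJ
-/

open Complex Metric Set Filter Topology

namespace Pool.Agent.H63.TC

lemma fij_small {τ₀ : ℂ} (hτ : 0 < τ₀.im) {w : ℂ} (hw : w ≠ 0) (h1 : ‖w‖ < 1)
    (h2 : ‖w‖ < τ₀.im) : ¬ Lat τ₀ w := by
  rintro ⟨m, n, rfl⟩
  have hm : m = 0 := by
    have h3 : |((m : ℂ) * τ₀ + n).im| < τ₀.im := (Complex.abs_im_le_norm _).trans_lt h2
    simp only [add_im, mul_im, intCast_re, intCast_im, zero_mul, add_zero] at h3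
    rw [abs_mul, abs_of_pos hτ] at h3
    have h4 : |(m : ℝ)| < 1 := by
      by_contra h5
      push Not at h5
      nlinarith
    have h6 : |m| < 1 := by exact_mod_cast h4
    exact Int.abs_lt_one_iff.1 h6
  subst hm
  have hn : n = 0 := by
    simp only [Int.cast_zero, zero_mul, zero_add] at h1
    have h3 : |(n : ℝ)| < 1 := by
      have := Complex.norm_intCast n
      rw [this] at h1
      exact h1
    have h6 : |n| < 1 := by exact_mod_cast h3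
    exact Int.abs_lt_one_iff.1 h6
  subst hn
  simp at hw

lemma fij_mem {τ₀ : ℂ} (hτ : 0 < τ₀.im) (m n : ℤ) {z : ℂ} (hz : Real.exp z.re < min 1 τ₀.im) :
    ((τ₀, m * τ₀ + n + exp z) : ℂ × ℂ) ∈ YY := by
  refine ⟨hτ, ?_⟩
  intro hl
  have h1 : Lat τ₀ (exp z) := by
    have := hl.sub (lat_int τ₀ m n)
    simpa using this
  rw [lt_min_iff] at hz
  refine fij_small hτ (exp_ne_zero z) ?_ ?_ h1
  · rw [Complex.norm_exp]; exact hz.1
  · rw [Complex.norm_exp]; exact hz.2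

theorem fij (hL : LiwStmt) (hC : WcvStmt) (hD : DeckStmt) (hU : UnqStmt) : FijStmt := by
  intro V _ _ A W τ₀ m n hτ
  have hpos : 0 < min 1 τ₀.im := lt_min one_pos hτ
  obtain ⟨ρ, hρ⟩ : ∃ ρ : ℝ, ∀ x : ℝ, x < ρ → Real.exp x < min 1 τ₀.im :=
    ⟨Real.log (min 1 τ₀.im), fun x hx => by
      rw [← Real.exp_log hpos]; exact Real.exp_lt_exp.2 hx⟩
  have hconv : Convex ℝ {z : ℂ | z.re < ρ} := convex_halfSpace_re_lt ρ
  obtain ⟨p₀, hp₀⟩ := (hC V A W).2 ⟨(τ₀, m * τ₀ + n + exp ((ρ - 1 : ℝ) : ℂ)),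
    fij_mem hτ m n (hρ _ (by simp))⟩
  have hp₁ : W.W p₀ = (τ₀, m * τ₀ + n + exp ((ρ - 1 : ℝ) : ℂ)) := congrArg Subtype.val hp₀
  obtain ⟨J, hJ1, hJ2, -⟩ := hL V A W ℂ {z : ℂ | z.re < ρ}
    (fun z => ((τ₀, m * τ₀ + n + exp z) : ℂ × ℂ)) ((ρ - 1 : ℝ) : ℂ) p₀ hconv (by simp)
    (by fun_prop) (fun z hz => fij_mem hτ m n (hρ _ hz)) hp₁
  refine ⟨ρ, J, hJ1, hJ2, ?_⟩
  intro p z hz hp
  have hE : A.E p = A.E (J z) := by
    rw [← W.Phi_W, ← W.Phi_W, hp, hJ2 z hz]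
  obtain ⟨g, hg1, hg2⟩ := hD V A p (J z) hE
  refine ⟨g, hg1, ?_, hg2⟩
  intro x
  refine hU V univ (fun x => W.W (g x)) (fun x => W.W x) p isPreconnected_univ
    (W.cont.comp g.continuous).continuousOn W.cont.continuousOn (fun t _ => W.mem _)
    (fun t _ => W.mem _) ?_ (mem_univ _) ?_ x (mem_univ _)
  · intro t _
    rw [W.Phi_W, W.Phi_W, hg1]
  · rw [hg2, hJ2 z hz, hp]

end Pool.Agent.H63.TC
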