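import Pool.Agent.H63.TC.Stmts

/-!
# Project TC, module MXP
-/

open Complex Metric Set Filter Topology

namespace Pool.Agent.H63.TC

/-- local sections of `W` over the fibre -/
lemma mxp_section (hL : LiwStmt) {V : Type} [TopologicalSpace V] [SimplyConnectedSpace V]
    {A : Atlas V} (W : Ell A) {τ₀ u₀ : ℂ} {x : V} (hx : W.W x = (τ₀, u₀)) :
    ∃ r > 0, ∃ j : ℂ → V, ContinuousOn j (ball u₀ r) ∧
      (∀ w ∈ ball u₀ r, (τ₀, w) ∈ YY ∧ W.W (j w) = (τ₀, w)) ∧ j u₀ = x := by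
  have h1 : IsOpen {w : ℂ | (τ₀, w) ∈ YY} := isOpen_YY.preimage (by fun_prop)
  have h2 : u₀ ∈ {w : ℂ | (τ₀, w) ∈ YY} := by
    have := W.mem x
    rw [hx] at this
    exact this
  obtain ⟨r, hr, hr2⟩ := Metric.isOpen_iff.1 h1 u₀ h2
  obtain ⟨j, hj1, hj2, hj3⟩ := hL V A W ℂ (ball u₀ r) (fun w => ((τ₀, w) : ℂ × ℂ)) u₀ x
    (convex_ball _ _) (mem_ball_self hr) (by fun_prop) (fun w hw => hr2 hw) hx
  exact ⟨r, hr, j, hj1, fun w hw => ⟨hr2 hw, hj2 w hw⟩, hj3⟩

/-- `Phi` is holomorphic along the fibre -/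
lemma mxp_Phi (hP : PhdStmt) {τ₀ w : ℂ} (h : (τ₀, w) ∈ YY) :
    DifferentiableAt ℂ (fun w : ℂ => Phi (τ₀, w)) w := by
  obtain ⟨-, -, -, -, -, L, hL, -⟩ := hP _ h
  have h1 : HasFDerivAt Phi (L : (ℂ × ℂ) →L[ℂ] (ℂ × ℂ)) ((fun w : ℂ => ((τ₀, w) : ℂ × ℂ)) w) :=
    hL.hasFDerivAt
  have h2 : DifferentiableAt ℂ (fun w : ℂ => ((τ₀, w) : ℂ × ℂ)) w := by fun_prop
  exact h1.differentiableAt.comp w h2

/-- the components of a holomorphic field are holomorphic along sections over the fibre -/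
lemma mxp_hol (hP : PhdStmt) {V : Type} [TopologicalSpace V]
    {A : Atlas V} (W : Ell A) {τ₀ u₀ : ℂ} {r : ℝ} {j : ℂ → V} {ξ : V → ℂ × ℂ} (hξ : A.Hol ξ)
    (hj : ContinuousOn j (ball u₀ r))
    (hW : ∀ w ∈ ball u₀ r, (τ₀, w) ∈ YY ∧ W.W (j w) = (τ₀, w)) :
    DifferentiableOn ℂ (fun w => ξ (j w)) (ball u₀ r) := by
  intro w hw
  have h1 : ContinuousAt j w := hj.continuousAt (isOpen_ball.mem_nhds hw)
  have h2 : DifferentiableAt ℂ (fun w => A.E (j w)) w := by
    refine (mxp_Phi hP (hW w hw).1).congr_of_eventuallyEq ?_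
    filter_upwards [isOpen_ball.mem_nhds hw] with w' hw'
    rw [← W.Phi_W, (hW w' hw').2]
  exact (hξ.comp_differentiableAt h1 h2).differentiableWithinAt

/-- the local maximum principle -/
lemma mxp_local (hP : PhdStmt) {V : Type} [TopologicalSpace V]
    {A : Atlas V} (W : Ell A) {τ₀ ω h₀ u₀ : ℂ} {ξ : V → ℂ × ℂ} {S : ℝ} (hξ : A.Hol ξ)
    (hh : ∀ x, (W.W x).1 = τ₀ → W.hh ξ x = h₀) (hS : ∀ x, (W.W x).1 = τ₀ → W.tr ω ξ x ≤ S)
    {r : ℝ} {j : ℂ → V} (hr : 0 < r) (hj : ContinuousOn j (ball u₀ r))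
    (hW : ∀ w ∈ ball u₀ r, (τ₀, w) ∈ YY ∧ W.W (j w) = (τ₀, w)) (h0 : W.tr ω ξ (j u₀) = S) :
    ∀ w ∈ ball u₀ r, W.tr ω ξ (j w) = S := by
  set c : ℝ := (ω * h₀).re / τ₀.im with hc
  set H : ℂ → ℂ := fun w => ω * (((ξ (j w)).2 - yt (τ₀, w) * h₀) / yu (τ₀, w)) + I * c * w
    with hH
  have htr : ∀ w ∈ ball u₀ r, W.tr ω ξ (j w) = (H w).re := by
    intro w hw
    have hWw := (hW w hw).2
    have hh' : W.hh ξ (j w) = h₀ := hh _ (by rw [hWw])
    rw [Ell.tr, Ell.kk, hh', hWw]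
    simp only [hH, hc]
    have e1 : ∀ (k : ℂ), (ω * (k - ((w.im / τ₀.im : ℝ) : ℂ) * h₀)).re =
        (ω * k + I * (((ω * h₀).re / τ₀.im : ℝ) : ℂ) * w).re := by
      intro k
      have e2 : ω * (k - ((w.im / τ₀.im : ℝ) : ℂ) * h₀) =
          ω * k - ((w.im / τ₀.im : ℝ) : ℂ) * (ω * h₀) := by ring
      rw [e2, sub_re, add_re, re_ofReal_mul]
      simp only [mul_re, I_re, I_im, ofReal_re, ofReal_im, mul_im]
      ring
    exact e1 _
  have hdiff : DifferentiableOn ℂ H (ball u₀ r) := by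
    intro w hw
    obtain ⟨-, -, hyu, hdt, hdu, -⟩ := hP _ (hW w hw).1
    have h2 : DifferentiableAt ℂ (fun w : ℂ => ((τ₀, w) : ℂ × ℂ)) w := by fun_prop
    have h3 : DifferentiableAt ℂ (fun w => yt (τ₀, w)) w :=
      DifferentiableAt.comp (g := yt) (f := fun w : ℂ => ((τ₀, w) : ℂ × ℂ)) w hdt h2
    have h4 : DifferentiableAt ℂ (fun w => yu (τ₀, w)) w :=
      DifferentiableAt.comp (g := yu) (f := fun w : ℂ => ((τ₀, w) : ℂ × ℂ)) w hdu h2
    have h5 : DifferentiableAt ℂ (fun w => (ξ (j w)).2) w :=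
      ((mxp_hol hP W hξ hj hW).differentiableAt (isOpen_ball.mem_nhds hw)).snd
    refine DifferentiableAt.differentiableWithinAt ?_
    refine DifferentiableAt.add (DifferentiableAt.const_mul ?_ _)
      (DifferentiableAt.const_mul differentiableAt_id _)
    exact (h5.sub (h3.mul_const _)).div h4 hyu
  have hexp : DifferentiableOn ℂ (fun w => exp (H w)) (ball u₀ r) := hdiff.cexp
  have hnorm : ∀ w, ‖exp (H w)‖ = Real.exp (H w).re := fun w => Complex.norm_exp _
  have hmax : IsMaxOn (norm ∘ fun w => exp (H w)) (ball u₀ r) u₀ := by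
    intro w hw
    simp only [mem_ofPred_eq, Function.comp_apply, hnorm]
    rw [Real.exp_le_exp, ← htr w hw, ← htr u₀ (mem_ball_self hr), h0]
    exact hS _ (by rw [(hW w hw).2])
  have key := Complex.norm_eqOn_of_isPreconnected_of_isMaxOn (convex_ball u₀ r).isPreconnected
    isOpen_ball hexp (mem_ball_self hr) hmax
  intro w hw
  have h6 := key hw
  simp only [Function.comp_apply, Function.const_apply, hnorm] at h6
  have h7 := Real.exp_injective h6
  rw [htr w hw, h7, ← htr u₀ (mem_ball_self hr), h0]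

/-- the transversal component of a holomorphic field is continuous -/
lemma mxp_cont (hP : PhdStmt) {V : Type} [TopologicalSpace V] {A : Atlas V} (W : Ell A) (ω : ℂ)
    {ξ : V → ℂ × ℂ} (hξ : A.Hol ξ) : Continuous (fun p => W.tr ω ξ p) := by
  have h0 := hξ.continuous
  have hWc := W.cont
  have h1 : Continuous (fun p => deriv lam (W.W p).1) := by
    rw [continuous_iff_continuousAt]
    intro p
    obtain ⟨-, -, -, -, -, L, hL, hLv⟩ := hP _ (W.mem p)
    have hU : IsOpen {τ : ℂ | 0 < τ.im} := isOpen_lt continuous_const Complex.continuous_im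
    have hd : DifferentiableOn ℂ lam {τ : ℂ | 0 < τ.im} := by
      intro τ hτ
      have hq : (τ, ((1 / 2 : ℝ) : ℂ) * τ + ((1 / 2 : ℝ) : ℂ)) ∈ YY :=
        leaf_mem_YY hτ (fun h => half_not_int h.1)
      obtain ⟨-, hne, -⟩ := hP _ hq
      by_contra hcon
      apply hne
      apply deriv_zero_of_not_differentiableAt
      intro h
      exact hcon h.differentiableWithinAt
    have h2 : ContinuousAt (deriv lam) (W.W p).1 :=
      ((hd.deriv hU).continuousOn).continuousAt (hU.mem_nhds (W.mem p).1)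
    exact ContinuousAt.comp (f := fun p => (W.W p).1) h2 (continuous_fst.comp hWc).continuousAt
  have h1' : ∀ p, deriv lam (W.W p).1 ≠ 0 := fun p => (hP _ (W.mem p)).2.1
  have hhc : Continuous (fun p => W.hh ξ p) := by
    unfold Ell.hh
    exact (continuous_fst.comp h0).div h1 h1'
  have hyt : Continuous (fun p => yt (W.W p)) := by
    rw [continuous_iff_continuousAt]
    intro p
    obtain ⟨-, -, -, hdt, -, -⟩ := hP _ (W.mem p)
    exact ContinuousAt.comp (f := fun p => W.W p) hdt.continuousAt hWc.continuousAt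
  have hyu : Continuous (fun p => yu (W.W p)) := by
    rw [continuous_iff_continuousAt]
    intro p
    obtain ⟨-, -, -, -, hdu, -⟩ := hP _ (W.mem p)
    exact ContinuousAt.comp (f := fun p => W.W p) hdu.continuousAt hWc.continuousAt
  have hkc : Continuous (fun p => W.kk ξ p) := by
    unfold Ell.kk
    exact ((continuous_snd.comp h0).sub (hyt.mul hhc)).div hyu (fun p => (hP _ (W.mem p)).2.2.1)
  unfold Ell.tr
  refine Complex.continuous_re.comp ?_
  refine continuous_const.mul (hkc.sub (Continuous.mul ?_ hhc))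
  refine Complex.continuous_ofReal.comp ?_
  refine Continuous.div ?_ ?_ (fun p => (W.mem p).1.ne')
  · exact Complex.continuous_im.comp (continuous_snd.comp hWc)
  · exact Complex.continuous_im.comp (continuous_fst.comp hWc)

lemma mxp_countable (τ₀ : ℂ) : {u : ℂ | Lat τ₀ u}.Countable := by
  have : {u : ℂ | Lat τ₀ u} = Set.range (fun x : ℤ × ℤ => (x.1 : ℂ) * τ₀ + x.2) := by
    ext u
    constructor
    · rintro ⟨m, n, rfl⟩
      exact ⟨(m, n), rfl⟩
    · rintro ⟨⟨m, n⟩, rfl⟩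
      exact ⟨m, n, rfl⟩
  rw [this]
  exact Set.countable_range _

theorem mxp (hL : LiwStmt) (hP : PhdStmt) : MxpStmt := by
  intro V _ _ A W τ₀ ω h₀ ξ S p hξ hτ hp hh hS hpS u hu
  set u₁ := (W.W p).2 with hu₁
  have hWp : W.W p = (τ₀, u₁) := by rw [← hp]
  have hu₁' : u₁ ∈ {u : ℂ | Lat τ₀ u}ᶜ := by
    have := W.mem p
    rw [hWp] at this
    exact this.2
  have hconn : IsPathConnected {u : ℂ | Lat τ₀ u}ᶜ :=
    (mxp_countable τ₀).isPathConnected_compl_of_one_lt_rank (by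
      rw [Complex.rank_real_complex]; exact_mod_cast Nat.one_lt_two)
  obtain ⟨γ, hγ⟩ := hconn.joinedIn u₁ hu₁' u hu
  -- the lifted path
  have hγc : Continuous γ.extend := γ.continuous_extend
  have hγm : ∀ s : ℝ, γ.extend s ∈ {u : ℂ | Lat τ₀ u}ᶜ := by
    intro s
    have : γ.extend s ∈ Set.range γ := by
      rw [← γ.extend_range]
      exact mem_range_self s
    obtain ⟨t, ht⟩ := this
    rw [← ht]
    exact hγ t
  obtain ⟨G, hG1, hG2, hG3⟩ := hL V A W ℝ univ (fun s => ((τ₀, γ.extend s) : ℂ × ℂ)) 0 p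
    convex_univ (mem_univ _) (by fun_prop) (fun s _ => ⟨hτ, hγm s⟩) (by rw [hWp]; simp)
  have hGc : Continuous G := continuousOn_univ.1 hG1
  have htr : Continuous (fun s => W.tr ω ξ (G s)) := (mxp_cont hP W ω hξ).comp hGc
  have hclosed : IsClosed {s : ℝ | W.tr ω ξ (G s) = S} := isClosed_eq htr continuous_const
  have hopen : IsOpen {s : ℝ | W.tr ω ξ (G s) = S} := by
    rw [isOpen_iff_mem_nhds]
    intro s₀ hs₀
    have hx : W.W (G s₀) = (τ₀, γ.extend s₀) := hG2 s₀ (mem_univ _)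
    obtain ⟨r, hr, j, hj1, hj2, hj3⟩ := mxp_section hL W hx
    have hloc := mxp_local hP W hξ hh hS hr hj1 hj2 (by rw [hj3]; exact hs₀)
    obtain ⟨δ, hδ, hδ2⟩ := Metric.isOpen_iff.1 (isOpen_ball.preimage hγc) s₀
      (show s₀ ∈ γ.extend ⁻¹' ball (γ.extend s₀) r from mem_ball_self hr)
    have heq : EqOn G (fun s => j (γ.extend s)) (ball s₀ δ) := by
      refine A.eqOn_of_E (convex_ball s₀ δ).isPreconnected hGc.continuousOn
        (hj1.comp hγc.continuousOn fun s hs => hδ2 hs) ?_ (mem_ball_self hδ) (by rw [hj3])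
      intro s hs
      rw [← W.Phi_W, ← W.Phi_W, hG2 s (mem_univ _), (hj2 _ (hδ2 hs)).2]
    filter_upwards [ball_mem_nhds s₀ hδ] with s hs
    have := hloc (γ.extend s) (hδ2 hs)
    rw [heq hs]
    exact this
  have huniv : {s : ℝ | W.tr ω ξ (G s) = S} = univ := by
    refine IsClopen.eq_univ ⟨hclosed, hopen⟩ ⟨0, ?_⟩
    rw [mem_ofPred_eq, hG3]
    exact hpS
  refine ⟨G 1, ?_, ?_⟩
  · rw [hG2 1 (mem_univ _)]
    simp
  · have : (1 : ℝ) ∈ {s : ℝ | W.tr ω ξ (G s) = S} := by rw [huniv]; exact mem_univ _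
    exact this

end Pool.Agent.H63.TC
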